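import Mathlib

set_option autoImplicit false

/-!
A sound and complete axiomatization of the modal logic of general game models.
-/

namespace Pool.Agent.Results.MP_4a7d17_lc.Axiomatization

universe u

/-- The names of the relations: `≤_i`, `∼_i` and `≈_i`. -/
inductive Rel (N : Type)
  | le (i : N)
  | sim (i : N)
  | free (i : N)

/-- The language `L_N`. -/
inductive Form (N : Type)
  | atom (n : ℕ)
  | neg (φ : Form N)
  | or (φ ψ : Form N)
  | dia (r : Rel N) (φ : Form N)

/-- A general game model: nonempty sets `A i` of actions, preorders `≤_i` and a valuation on the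
set of all strategy profiles, and a nonempty set `W` of strategy profiles. -/
structure GameModel (N : Type) where
  A : N → Type u
  nonempty : ∀ i, Nonempty (A i)
  le : N → ((i : N) → A i) → ((i : N) → A i) → Prop
  le_refl : ∀ i σ, le i σ σ
  le_trans : ∀ i σ τ ρ, le i σ τ → le i τ ρ → le i σ ρ
  V : ℕ → Set ((i : N) → A i)
  W : Set ((i : N) → A i)
  W_nonempty : W.Nonempty

variable {N : Type}

/-- The relations of a game model: `σ ∼_i τ` iff `σ_i = τ_i`, and `σ ≈_i τ` iff `σ_{-i} = τ_{-i}`. -/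
def GameModel.rel (M : GameModel.{u} N) : Rel N → ((i : N) → M.A i) → ((i : N) → M.A i) → Prop
  | .le i, σ, τ => M.le i σ τ
  | .sim i, σ, τ => σ i = τ i
  | .free i, σ, τ => ∀ j, j ≠ i → σ j = τ j

/-- Satisfaction in a general game model; the diamonds quantify over the profiles in `W`. -/
def Sat (M : GameModel.{u} N) : Form N → ((i : N) → M.A i) → Prop
  | .atom n, σ => σ ∈ M.V n
  | .neg φ, σ => ¬ Sat M φ σ
  | .or φ ψ, σ => Sat M φ σ ∨ Sat M ψ σ
  | .dia r φ, σ => ∃ τ ∈ M.W, M.rel r σ τ ∧ Sat M φ τ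

/-- `φ` is valid on general game models. -/
def Valid (φ : Form N) : Prop := ∀ M : GameModel.{u} N, ∀ σ ∈ M.W, Sat M φ σ

/-- Implication. -/
def Form.imp (φ ψ : Form N) : Form N := .or (.neg φ) ψ

/-- The box dual to the diamond. -/
def Form.box (r : Rel N) (φ : Form N) : Form N := .neg (.dia r (.neg φ))

/-- Propositional tautologies: formulas true under every truth assignment that respects `¬` and
`∨` (formulas beginning with a diamond being treated as letters). -/
def Taut (φ : Form N) : Prop :=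
  ∀ v : Form N → Prop, (∀ φ, v φ.neg ↔ ¬ v φ) → (∀ φ ψ, v (φ.or ψ) ↔ (v φ ∨ v ψ)) → v φ

/-- The axiom system. -/
inductive Provable : Form N → Prop
  /-- propositional tautologies -/
  | taut (φ) : Taut φ → Provable φ
  /-- modus ponens -/
  | mp (φ ψ) : Provable (φ.imp ψ) → Provable φ → Provable ψ
  /-- necessitation -/
  | nec (r) (φ) : Provable φ → Provable (φ.box r)
  /-- the axiom K -/
  | K (r) (φ ψ : Form N) : Provable (((φ.imp ψ).box r).imp ((φ.box r).imp (ψ.box r)))
  /-- duality: `◇φ ↔ ¬□¬φ` -/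
  | dual₁ (r) (φ : Form N) : Provable ((Form.dia r φ).imp (φ.neg.box r).neg)
  | dual₂ (r) (φ : Form N) : Provable ((φ.neg.box r).neg.imp (Form.dia r φ))
  /-- reflexivity of all relations -/
  | T (r) (φ : Form N) : Provable (φ.imp (.dia r φ))
  /-- transitivity of all relations -/
  | four (r) (φ : Form N) : Provable ((Form.dia r (.dia r φ)).imp (.dia r φ))
  /-- symmetry of `∼_i` -/
  | B_sim (i : N) (φ : Form N) : Provable (φ.imp ((Form.dia (.sim i) φ).box (.sim i)))
  /-- symmetry of `≈_i` -/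
  | B_free (i : N) (φ : Form N) : Provable (φ.imp ((Form.dia (.free i) φ).box (.free i)))
  /-- `≈_i` is contained in `∼_j` for `j ≠ i` -/
  | incl (i j : N) (φ : Form N) : j ≠ i →
      Provable ((Form.dia (.free i) φ).imp (.dia (.sim j) φ))
  /-- with exactly two players `i ≠ j`, the relation `∼_j` is contained in `≈_i` -/
  | two (i j : N) (φ : Form N) : j ≠ i → (∀ k, k = i ∨ k = j) →
      Provable ((Form.dia (.sim j) φ).imp (.dia (.free i) φ))

/-! ### Soundness -/

theorem sat_imp (M : GameModel.{u} N) (φ ψ : Form N) (σ : (i : N) → M.A i) :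
    Sat M (φ.imp ψ) σ ↔ (Sat M φ σ → Sat M ψ σ) := by
  show (¬ Sat M φ σ ∨ Sat M ψ σ) ↔ _
  tauto

theorem sat_box (M : GameModel.{u} N) (r : Rel N) (φ : Form N) (σ : (i : N) → M.A i) :
    Sat M (φ.box r) σ ↔ ∀ τ ∈ M.W, M.rel r σ τ → Sat M φ τ := by
  show (¬ ∃ τ ∈ M.W, M.rel r σ τ ∧ ¬ Sat M φ τ) ↔ _
  push Not
  rfl

theorem rel_refl (M : GameModel.{u} N) (r : Rel N) (σ : (i : N) → M.A i) : M.rel r σ σ := by
  cases r with
  | le i => exact M.le_refl i σ
  | sim i => rfl
  | free i => exact fun _ _ => rfl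

theorem rel_trans (M : GameModel.{u} N) (r : Rel N) (σ τ ρ : (i : N) → M.A i)
    (h1 : M.rel r σ τ) (h2 : M.rel r τ ρ) : M.rel r σ ρ := by
  cases r with
  | le i => exact M.le_trans i σ τ ρ h1 h2
  | sim i => exact Eq.trans h1 h2
  | free i => exact fun j hj => (h1 j hj).trans (h2 j hj)

theorem sound (φ : Form N) (h : Provable φ) : Valid.{u} φ := by
  intro M
  induction h with
  | taut φ h =>
    intro σ hσ
    exact h (fun ψ => Sat M ψ σ) (fun _ => Iff.rfl) (fun _ _ => Iff.rfl)
  | mp φ ψ _ _ ih1 ih2 =>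
    intro σ hσ
    exact (sat_imp M φ ψ σ).1 (ih1 σ hσ) (ih2 σ hσ)
  | nec r φ _ ih =>
    intro σ hσ
    rw [sat_box]
    exact fun τ hτ _ => ih τ hτ
  | K r φ ψ =>
    intro σ hσ
    rw [sat_imp, sat_imp, sat_box, sat_box, sat_box]
    intro h1 h2 τ hτ hr
    exact (sat_imp M φ ψ τ).1 (h1 τ hτ hr) (h2 τ hτ hr)
  | dual₁ r φ =>
    intro σ hσ
    rw [sat_imp]
    rintro ⟨τ, hτ, hr, h⟩ hbox
    exact (sat_box M r φ.neg σ).1 hbox τ hτ hr h
  | dual₂ r φ =>
    intro σ hσ
    rw [sat_imp]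
    intro h
    change ¬ Sat M (φ.neg.box r) σ at h
    rw [sat_box] at h
    push Not at h
    obtain ⟨τ, hτ, hr, h⟩ := h
    exact ⟨τ, hτ, hr, not_not.1 h⟩
  | T r φ =>
    intro σ hσ
    rw [sat_imp]
    exact fun h => ⟨σ, hσ, rel_refl M r σ, h⟩
  | four r φ =>
    intro σ hσ
    rw [sat_imp]
    rintro ⟨τ, hτ, h1, ρ, hρ, h2, h⟩
    exact ⟨ρ, hρ, rel_trans M r σ τ ρ h1 h2, h⟩
  | B_sim i φ =>
    intro σ hσ
    rw [sat_imp, sat_box]
    intro h τ hτ hr
    exact ⟨σ, hσ, Eq.symm hr, h⟩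
  | B_free i φ =>
    intro σ hσ
    rw [sat_imp, sat_box]
    intro h τ hτ hr
    exact ⟨σ, hσ, fun j hj => (hr j hj).symm, h⟩
  | incl i j φ hij =>
    intro σ hσ
    rw [sat_imp]
    rintro ⟨τ, hτ, hr, h⟩
    exact ⟨τ, hτ, hr j hij, h⟩
  | two i j φ hij hk =>
    intro σ hσ
    rw [sat_imp]
    rintro ⟨τ, hτ, hr, h⟩
    refine ⟨τ, hτ, fun k hki => ?_, h⟩
    rcases hk k with rfl | rfl
    · exact absurd rfl hki
    · exact hr

/-! ### Maximal consistent sets -/

/-- Derivability from a set of formulas. -/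
inductive Der (Γ : Set (Form N)) : Form N → Prop
  | hyp (φ) : φ ∈ Γ → Der Γ φ
  | thm (φ) : Provable φ → Der Γ φ
  | mp (φ ψ) : Der Γ (φ.imp ψ) → Der Γ φ → Der Γ ψ

/-- Falsum. -/
def bot : Form N := .neg (.or (.atom 0) (.neg (.atom 0)))

theorem Der.mono {Γ Δ : Set (Form N)} (h : Γ ⊆ Δ) {φ : Form N} (hφ : Der Γ φ) : Der Δ φ := by
  induction hφ with
  | hyp φ h1 => exact .hyp _ (h h1)
  | thm φ h1 => exact .thm _ h1
  | mp φ ψ _ _ ih1 ih2 => exact .mp _ _ ih1 ih2

theorem Der.deduction {Γ : Set (Form N)} {φ ψ : Form N} (h : Der (insert φ Γ) ψ) :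
    Der Γ (φ.imp ψ) := by
  induction h with
  | hyp ψ h1 =>
    rcases h1 with rfl | h1
    · apply Der.thm
      apply Provable.taut
      intro v hn ho
      simp only [Form.imp, hn, ho]
      tauto
    · refine .mp ψ _ (.thm _ (.taut _ ?_)) (.hyp _ h1)
      intro v hn ho
      simp only [Form.imp, hn, ho]
      tauto
  | thm ψ h1 =>
    refine .mp ψ _ (.thm _ (.taut _ ?_)) (.thm _ h1)
    intro v hn ho
    simp only [Form.imp, hn, ho]
    tauto
  | mp α β _ _ ih1 ih2 =>
    refine .mp _ _ (.mp _ _ (.thm _ (.taut _ ?_)) ih1) ih2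
    intro v hn ho
    simp only [Form.imp, hn, ho]
    tauto

/-- Consistent sets. -/
def Consistent (Γ : Set (Form N)) : Prop := ¬ Der Γ bot

theorem der_sUnion {c : Set (Set (Form N))} (hc : IsChain (· ⊆ ·) c) (hne : c.Nonempty)
    {φ : Form N} (h : Der (⋃₀ c) φ) : ∃ Γ ∈ c, Der Γ φ := by
  induction h with
  | hyp φ h1 =>
    obtain ⟨Γ, hΓ, h2⟩ := h1
    exact ⟨Γ, hΓ, .hyp _ h2⟩
  | thm φ h1 =>
    obtain ⟨Γ, hΓ⟩ := hne
    exact ⟨Γ, hΓ, .thm _ h1⟩
  | mp φ ψ _ _ ih1 ih2 =>
    obtain ⟨Γ, hΓ, h1⟩ := ih1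
    obtain ⟨Δ, hΔ, h2⟩ := ih2
    rcases hc.total hΓ hΔ with h | h
    · exact ⟨Δ, hΔ, .mp _ _ (h1.mono h) h2⟩
    · exact ⟨Γ, hΓ, .mp _ _ h1 (h2.mono h)⟩

/-- Maximal consistent sets. -/
def IsMCS (w : Set (Form N)) : Prop := Consistent w ∧ ∀ Δ, Consistent Δ → w ⊆ Δ → Δ ⊆ w

theorem lindenbaum {Γ : Set (Form N)} (h : Consistent Γ) : ∃ w, IsMCS w ∧ Γ ⊆ w := by
  obtain ⟨w, hΓw, hw⟩ := zorn_subset_nonempty {Δ : Set (Form N) | Consistent Δ} (by
    intro c hc hchain hne
    refine ⟨⋃₀ c, ?_, fun s hs => Set.subset_sUnion_of_mem hs⟩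
    intro hbot
    obtain ⟨Δ, hΔ, h1⟩ := der_sUnion hchain hne hbot
    exact hc hΔ h1) Γ h
  exact ⟨w, ⟨hw.prop, fun Δ hΔ hsub => hw.le_of_ge hΔ hsub⟩, hΓw⟩

section MCS

variable {w : Set (Form N)} (hw : IsMCS w)

include hw

theorem IsMCS.mem_of_der {φ : Form N} (h : Der w φ) : φ ∈ w := by
  have h1 : Consistent (insert φ w) := by
    intro hb
    exact hw.1 (.mp _ _ hb.deduction h)
  exact hw.2 _ h1 (Set.subset_insert _ _) (Set.mem_insert _ _)

theorem IsMCS.thm {φ : Form N} (h : Provable φ) : φ ∈ w := hw.mem_of_der (.thm _ h)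

theorem IsMCS.mp {φ ψ : Form N} (h1 : φ.imp ψ ∈ w) (h2 : φ ∈ w) : ψ ∈ w :=
  hw.mem_of_der (.mp _ _ (.hyp _ h1) (.hyp _ h2))

theorem IsMCS.neg_iff (φ : Form N) : φ.neg ∈ w ↔ φ ∉ w := by
  constructor
  · intro h1 h2
    apply hw.1
    refine .mp _ _ (.mp _ _ (.thm _ (.taut _ ?_)) (.hyp _ h1)) (.hyp _ h2)
    intro v hn ho
    simp only [Form.imp, bot, hn, ho]
    tauto
  · intro h
    by_contra h1
    have h2 : ¬ Consistent (insert φ w) := fun h3 =>
      h (hw.2 _ h3 (Set.subset_insert _ _) (Set.mem_insert _ _))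
    have h3 : Der (insert φ w) bot := not_not.1 h2
    apply h1
    apply hw.mem_of_der
    refine .mp _ _ (.thm _ (.taut _ ?_)) h3.deduction
    intro v hn ho
    simp only [Form.imp, bot, hn, ho]
    tauto

theorem IsMCS.or_iff (φ ψ : Form N) : φ.or ψ ∈ w ↔ (φ ∈ w ∨ ψ ∈ w) := by
  constructor
  · intro h
    by_contra h1
    push Not at h1
    have h2 := (hw.neg_iff φ).2 h1.1
    apply h1.2
    apply hw.mem_of_der
    refine .mp _ _ (.mp _ _ (.thm _ (.taut _ ?_)) (.hyp _ h)) (.hyp _ h2)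
    intro v hn ho
    simp only [Form.imp, hn, ho]
    tauto
  · rintro (h | h)
    · apply hw.mem_of_der
      refine .mp _ _ (.thm _ (.taut _ ?_)) (.hyp _ h)
      intro v hn ho
      simp only [Form.imp, hn, ho]
      tauto
    · apply hw.mem_of_der
      refine .mp _ _ (.thm _ (.taut _ ?_)) (.hyp _ h)
      intro v hn ho
      simp only [Form.imp, hn, ho]
      tauto

end MCS

/-- The worlds of the canonical model. -/
def Ω (N : Type) : Type := {w : Set (Form N) // IsMCS w}

/-- The canonical relations. -/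
def R (r : Rel N) (w v : Ω N) : Prop := ∀ φ, φ ∈ v.1 → Form.dia r φ ∈ w.1

theorem der_box {r : Rel N} {w : Set (Form N)} (hw : IsMCS w) {φ : Form N}
    (h : Der {ψ | ψ.box r ∈ w} φ) : φ.box r ∈ w := by
  induction h with
  | hyp φ h1 => exact h1
  | thm φ h1 => exact hw.thm (.nec r φ h1)
  | mp φ ψ _ _ ih1 ih2 => exact hw.mp (hw.mp (hw.thm (.K r φ ψ)) ih1) ih2

theorem exists_R {r : Rel N} {w : Ω N} {φ : Form N} (h : Form.dia r φ ∈ w.1) :
    ∃ v : Ω N, R r w v ∧ φ ∈ v.1 := by
  have h1 : Consistent (insert φ {ψ | ψ.box r ∈ w.1}) := by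
    intro hb
    have h2 : Der {ψ | ψ.box r ∈ w.1} φ.neg := by
      refine .mp _ _ (.thm _ (.taut _ ?_)) hb.deduction
      intro v hn ho
      simp only [Form.imp, bot, hn, ho]
      tauto
    have h3 := der_box w.2 h2
    have h4 := w.2.mp (w.2.thm (.dual₁ r φ)) h
    exact (w.2.neg_iff _).1 h4 h3
  obtain ⟨v, hv, hsub⟩ := lindenbaum h1
  refine ⟨⟨v, hv⟩, ?_, hsub (Set.mem_insert _ _)⟩
  intro ψ hψ
  by_contra h2
  have h3 : ψ.neg.box r ∈ w.1 := by
    by_contra h4
    exact h2 (w.2.mp (w.2.thm (.dual₂ r ψ)) ((w.2.neg_iff _).2 h4))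
  have h4 : ψ.neg ∈ v := hsub (Set.mem_insert_of_mem _ h3)
  exact (hv.neg_iff ψ).1 h4 hψ

theorem R_refl (r : Rel N) (w : Ω N) : R r w w := fun φ hφ => w.2.mp (w.2.thm (.T r φ)) hφ

theorem R_trans {r : Rel N} {w v x : Ω N} (h1 : R r w v) (h2 : R r v x) : R r w x :=
  fun φ hφ => w.2.mp (w.2.thm (.four r φ)) (h1 _ (h2 _ hφ))

theorem R_symm_of {r : Rel N} (hB : ∀ φ : Form N, Provable (φ.imp ((Form.dia r φ).box r)))
    {w v : Ω N} (h : R r w v) : R r v w := by
  intro φ hφ
  by_contra h1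
  have h2 := (v.2.neg_iff _).2 h1
  have h3 := h _ h2
  have h4 := w.2.mp (w.2.thm (hB φ)) hφ
  exact (w.2.neg_iff _).1 h4 h3

theorem R_incl {i j : N} (hij : j ≠ i) {w v : Ω N} (h : R (.free i) w v) : R (.sim j) w v :=
  fun φ hφ => w.2.mp (w.2.thm (.incl i j φ hij)) (h φ hφ)

theorem R_two {i j : N} (hij : j ≠ i) (hk : ∀ k, k = i ∨ k = j) {w v : Ω N}
    (h : R (.sim j) w v) : R (.free i) w v :=
  fun φ hφ => w.2.mp (w.2.thm (.two i j φ hij hk)) (h φ hφ)

/-! ### Paths -/

open scoped Classical in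
/-- Remove the last edges as long as their labels satisfy `P`.  (Paths are lists of labelled
edges, the last edge coming first.) -/
noncomputable def strip (P : Rel N → Prop) : List (Rel N × Ω N) → List (Rel N × Ω N)
  | [] => []
  | e :: l => if P e.1 then strip P l else e :: l

theorem strip_pos {P : Rel N → Prop} {e : Rel N × Ω N} (l : List (Rel N × Ω N)) (h : P e.1) :
    strip P (e :: l) = strip P l := by
  simp only [strip, if_pos h]

theorem strip_neg {P : Rel N → Prop} {e : Rel N × Ω N} (l : List (Rel N × Ω N)) (h : ¬ P e.1) :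
    strip P (e :: l) = e :: l := by
  simp only [strip, if_neg h]

theorem strip_suffix (P : Rel N → Prop) (l : List (Rel N × Ω N)) : strip P l <:+ l := by
  induction l with
  | nil => exact List.suffix_rfl
  | cons e l ih =>
    by_cases h : P e.1
    · rw [strip_pos l h]
      exact ih.trans (List.suffix_cons e l)
    · rw [strip_neg l h]

theorem strip_common {ι : Type*} [Nonempty ι] (P : ι → Rel N → Prop) (n : ℕ) :
    ∀ l l' : List (Rel N × Ω N), l.length + l'.length = n →
      (∀ j, strip (P j) l = strip (P j) l') →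
        strip (fun r => ∀ j, P j r) l = strip (fun r => ∀ j, P j r) l' := by
  induction n using Nat.strong_induction_on with
  | _ n ih =>
    intro l l' hn h
    -- the case in which something is removed
    by_cases h1 : ∃ e t, l = e :: t ∧ ∀ j, P j e.1
    · obtain ⟨e, t, rfl, he⟩ := h1
      rw [strip_pos t he]
      refine ih _ ?_ t l' rfl fun j => ?_
      · rw [← hn]
        simp
      · rw [← h j, strip_pos t (he j)]
    by_cases h2 : ∃ e t, l' = e :: t ∧ ∀ j, P j e.1
    · obtain ⟨e, t, rfl, he⟩ := h2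
      rw [strip_pos t he]
      refine ih _ ?_ l t rfl fun j => ?_
      · rw [← hn]
        simp
      · rw [h j, strip_pos t (he j)]
    -- nothing is removed
    have key : ∀ l : List (Rel N × Ω N), (¬ ∃ e t, l = e :: t ∧ ∀ j, P j e.1) →
        (∃ j, strip (P j) l = l) ∧ strip (fun r => ∀ j, P j r) l = l := by
      intro l hl
      cases l with
      | nil => exact ⟨⟨Classical.arbitrary ι, rfl⟩, rfl⟩
      | cons e t =>
        have hj : ¬ ∀ j, P j e.1 := fun h3 => hl ⟨e, t, rfl, h3⟩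
        refine ⟨?_, strip_neg t hj⟩
        push Not at hj
        obtain ⟨j, hj⟩ := hj
        exact ⟨j, strip_neg t hj⟩
    obtain ⟨⟨j, hj⟩, h3⟩ := key l h1
    obtain ⟨⟨j', hj'⟩, h4⟩ := key l' h2
    rw [h3, h4]
    have h5 : l <:+ l' := by
      have h6 := strip_suffix (P j) l'
      rwa [← h j, hj] at h6
    have h6 : l' <:+ l := by
      have h6 := strip_suffix (P j') l
      rwa [h j', hj'] at h6
    exact h5.eq_of_length (le_antisymm h5.length_le h6.length_le)

/-- The last world of a path. -/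
def last (w : Ω N) : List (Rel N × Ω N) → Ω N
  | [] => w
  | e :: _ => e.2

/-- The edges of the path follow the canonical relations. -/
def IsPath (w : Ω N) : List (Rel N × Ω N) → Prop
  | [] => True
  | e :: l => IsPath w l ∧ R e.1 (last w l) e.2

theorem IsPath.strip {w : Ω N} {l : List (Rel N × Ω N)} (h : IsPath w l) (P : Rel N → Prop) :
    IsPath w (strip P l) := by
  induction l with
  | nil => trivial
  | cons e l ih =>
    by_cases he : P e.1
    · rw [strip_pos l he]
      exact ih h.1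
    · rw [strip_neg l he]
      exact h

theorem last_strip {P : Rel N → Prop} {E : Ω N → Ω N → Prop} (hr : ∀ x, E x x)
    (htr : ∀ x y z, E x y → E y z → E x z) (hP : ∀ r x y, P r → R r x y → E x y) {w : Ω N}
    {l : List (Rel N × Ω N)} (h : IsPath w l) : E (last w (Axiomatization.strip P l)) (last w l) := by
  induction l with
  | nil => exact hr _
  | cons e l ih =>
    by_cases he : P e.1
    · rw [strip_pos l he]
      exact htr _ _ _ (ih h.1) (hP _ _ _ he h.2)
    · rw [strip_neg l he]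
      exact hr _

/-- The labels that preserve the coordinate `i`. -/
def Pres (i : N) : Rel N → Prop
  | .le _ => False
  | .sim j => j = i
  | .free j => j ≠ i

/-- The strategy profile of a path. -/
noncomputable def pt (w : Ω N) (l : List (Rel N × Ω N)) :
    (i : N) → ULift.{u} (Ω N × List (Rel N × Ω N)) :=
  fun i => ⟨(w, strip (Pres i) l)⟩

theorem pt_sim {i : N} {w w' : Ω N} {l l' : List (Rel N × Ω N)} (hl : IsPath w l)
    (hl' : IsPath w' l') (h : pt.{u} w l i = pt w' l' i) : R (.sim i) (last w l) (last w' l') := by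
  have h1 := congrArg ULift.down h
  change (w, strip (Pres i) l) = (w', strip (Pres i) l') at h1
  obtain ⟨rfl, h2⟩ := Prod.mk.inj h1
  have hsymm : ∀ {x y : Ω N}, R (.sim i) x y → R (.sim i) y x := fun h => R_symm_of (.B_sim i) h
  have hP : ∀ r (x y : Ω N), Pres i r → R r x y → R (.sim i) x y := by
    intro r x y hr hR
    cases r with
    | le j => exact hr.elim
    | sim j =>
      change j = i at hr
      subst hr
      exact hR
    | free j => exact R_incl (Ne.symm hr) hR
  have h3 := last_strip (R_refl (.sim i)) (fun x y z => R_trans) hP hl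
  have h4 := last_strip (R_refl (.sim i)) (fun x y z => R_trans) hP hl'
  rw [h2] at h3
  exact R_trans (hsymm h3) h4

theorem pt_free [Nontrivial N] {i : N} {w w' : Ω N} {l l' : List (Rel N × Ω N)}
    (hl : IsPath w l) (hl' : IsPath w' l') (h : ∀ j, j ≠ i → pt.{u} w l j = pt w' l' j) :
    R (.free i) (last w l) (last w' l') := by
  obtain ⟨j₀, hj₀⟩ := exists_ne i
  have hne : Nonempty {j // j ≠ i} := ⟨⟨j₀, hj₀⟩⟩
  have h1 : ∀ j, j ≠ i → w = w' ∧ strip (Pres j) l = strip (Pres j) l' := by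
    intro j hj
    have h1 := congrArg ULift.down (h j hj)
    exact Prod.mk.inj h1
  obtain ⟨rfl, -⟩ := h1 j₀ hj₀
  have h2 := strip_common (fun j : {j // j ≠ i} => Pres j.1) _ l l' rfl
    (fun j => (h1 j.1 j.2).2)
  have hsymm : ∀ {x y : Ω N}, R (.free i) x y → R (.free i) y x := fun h => R_symm_of (.B_free i) h
  have hP : ∀ r (x y : Ω N), (∀ j : {j // j ≠ i}, Pres j.1 r) → R r x y → R (.free i) x y := by
    intro r x y hr hR
    cases r with
    | le k => exact (hr ⟨j₀, hj₀⟩).elim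
    | sim k =>
      have hk : ∀ j, j ≠ i → k = j := fun j hj => hr ⟨j, hj⟩
      have hki : k ≠ i := by
        rw [hk j₀ hj₀]
        exact hj₀
      apply R_two hki _ hR
      intro j
      by_cases hj : j = i
      · exact Or.inl hj
      · exact Or.inr (hk j hj).symm
    | free k =>
      have hk : k = i := by
        by_contra hki
        exact hr ⟨k, hki⟩ rfl
      subst hk
      exact hR
  have h3 := last_strip (R_refl (.free i)) (fun x y z => R_trans) hP hl
  have h4 := last_strip (R_refl (.free i)) (fun x y z => R_trans) hP hl'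
  rw [h2] at h3
  exact R_trans (hsymm h3) h4

theorem pt_injective [Nontrivial N] {w w' : Ω N} {l l' : List (Rel N × Ω N)}
    (h : pt.{u} w l = pt w' l') : w = w' ∧ l = l' := by
  obtain ⟨i₀, j₀, hij⟩ := exists_pair_ne N
  have h1 : ∀ j, w = w' ∧ strip (Pres j) l = strip (Pres j) l' := by
    intro j
    have h1 := congrArg ULift.down (congrFun h j)
    exact Prod.mk.inj h1
  refine ⟨(h1 i₀).1, ?_⟩
  have hne : Nonempty N := ⟨i₀⟩
  have h2 := strip_common (fun j : N => Pres j) _ l l' rfl (fun j => (h1 j).2)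
  have h3 : ∀ l : List (Rel N × Ω N), strip (fun r => ∀ j : N, Pres j r) l = l := by
    intro l
    cases l with
    | nil => rfl
    | cons e t =>
      apply strip_neg
      intro h4
      obtain ⟨r, x⟩ := e
      cases r with
      | le k => exact h4 i₀
      | sim k => exact hij ((h4 i₀ : k = i₀).symm.trans (h4 j₀))
      | free k => exact h4 k rfl
  rwa [h3, h3] at h2

/-! ### The game model -/

/-- The general game model built from the canonical model. -/
noncomputable def canonical [Nontrivial N] (w₀ : Ω N) : GameModel.{u} N where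
  A := fun _ => ULift.{u} (Ω N × List (Rel N × Ω N))
  nonempty := fun _ => ⟨⟨(w₀, [])⟩⟩
  le := fun i σ τ => σ = τ ∨ ∃ w l w' l', IsPath w l ∧ IsPath w' l' ∧ σ = pt w l ∧
    τ = pt w' l' ∧ R (.le i) (last w l) (last w' l')
  le_refl := fun _ _ => Or.inl rfl
  le_trans := by
    rintro i σ τ ρ (rfl | ⟨w, l, w', l', h1, h2, h3, h4, h5⟩) h6
    · exact h6
    · rcases h6 with rfl | ⟨x, m, x', m', k1, k2, k3, k4, k5⟩
      · exact Or.inr ⟨w, l, w', l', h1, h2, h3, h4, h5⟩
      · rw [h4] at k3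
        obtain ⟨rfl, rfl⟩ := pt_injective k3
        exact Or.inr ⟨w, l, x', m', h1, k2, h3, k4, R_trans h5 k5⟩
  V := fun n => {σ | ∃ w l, IsPath w l ∧ σ = pt w l ∧ Form.atom n ∈ (last w l).1}
  W := {σ | ∃ w l, IsPath w l ∧ σ = pt w l}
  W_nonempty := ⟨pt w₀ [], w₀, [], trivial, rfl⟩

theorem truth_lemma [Nontrivial N] (w₀ : Ω N) (φ : Form N) :
    ∀ (w : Ω N) (l : List (Rel N × Ω N)), IsPath w l →
      (Sat (canonical.{u} w₀) φ (pt w l) ↔ φ ∈ (last w l).1) := by
  induction φ with
  | atom n =>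
    intro w l hl
    constructor
    · rintro ⟨w', l', -, h, h1⟩
      obtain ⟨rfl, rfl⟩ := pt_injective h
      exact h1
    · intro h
      exact ⟨w, l, hl, rfl, h⟩
  | neg φ ih =>
    intro w l hl
    rw [(last w l).2.neg_iff, ← ih w l hl]
    rfl
  | or φ ψ ih1 ih2 =>
    intro w l hl
    rw [(last w l).2.or_iff, ← ih1 w l hl, ← ih2 w l hl]
    rfl
  | dia r φ ih =>
    intro w l hl
    constructor
    · rintro ⟨τ, ⟨w', l', hl', rfl⟩, hr, h⟩
      have h1 := (ih w' l' hl').1 h
      have h2 : R r (last w l) (last w' l') := by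
        cases r with
        | le i =>
          rcases hr with hr | ⟨x, m, x', m', -, -, k3, k4, k5⟩
          · obtain ⟨rfl, rfl⟩ := pt_injective hr
            exact R_refl _ _
          · obtain ⟨rfl, rfl⟩ := pt_injective k3
            obtain ⟨rfl, rfl⟩ := pt_injective k4
            exact k5
        | sim i => exact pt_sim hl hl' hr
        | free i => exact pt_free hl hl' hr
      exact h2 φ h1
    · intro h
      obtain ⟨v, hv, hφ⟩ := exists_R h
      cases r with
      | le i =>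
        refine ⟨pt v [], ⟨v, [], trivial, rfl⟩, ?_, (ih v [] trivial).2 hφ⟩
        exact Or.inr ⟨w, l, v, [], hl, trivial, rfl, rfl, hv⟩
      | sim i =>
        have hp : IsPath w ((.sim i, v) :: l) := ⟨hl, hv⟩
        refine ⟨pt w ((.sim i, v) :: l), ⟨w, _, hp, rfl⟩, ?_, (ih w _ hp).2 hφ⟩
        show (⟨(w, strip (Pres i) l)⟩ : ULift.{u} (Ω N × List (Rel N × Ω N))) =
          ⟨(w, strip (Pres i) ((.sim i, v) :: l))⟩
        rw [strip_pos (P := Pres i) (e := (.sim i, v)) l rfl]
      | free i =>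
        have hp : IsPath w ((.free i, v) :: l) := ⟨hl, hv⟩
        refine ⟨pt w ((.free i, v) :: l), ⟨w, _, hp, rfl⟩, ?_, (ih w _ hp).2 hφ⟩
        intro j hj
        show (⟨(w, strip (Pres j) l)⟩ : ULift.{u} (Ω N × List (Rel N × Ω N))) =
          ⟨(w, strip (Pres j) ((.free i, v) :: l))⟩
        rw [strip_pos (P := Pres j) (e := (.free i, v)) l (Ne.symm hj)]

/-- For every set `N` of at least two players, the formulas valid on all general game models for
`N` are exactly those provable in the axiom system. -/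
theorem result (N : Type) [Nontrivial N] (φ : Form N) : Provable φ ↔ Valid.{u} φ := by
  constructor
  · exact sound φ
  · intro h
    by_contra hφ
    have h1 : Consistent ({φ.neg} : Set (Form N)) := by
      intro hb
      have h2 : Der (insert φ.neg ∅) (bot : Form N) := by
        rwa [insert_empty_eq]
      have h3 := h2.deduction
      have h4 : Der ∅ φ := by
        refine .mp _ _ (.thm _ (.taut _ ?_)) h3
        intro v hn ho
        simp only [Form.imp, bot, hn, ho]
        tauto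
      apply hφ
      clear h2 h3 hφ h hb
      induction h4 with
      | hyp φ h => exact absurd h (Set.notMem_empty _)
      | thm φ h => exact h
      | mp φ ψ _ _ ih1 ih2 => exact .mp _ _ ih1 ih2
    obtain ⟨w, hw, hsub⟩ := lindenbaum h1
    have hp : IsPath (⟨w, hw⟩ : Ω N) [] := trivial
    have h2 := h (canonical.{u} ⟨w, hw⟩) (pt ⟨w, hw⟩ []) ⟨⟨w, hw⟩, [], hp, rfl⟩
    have h3 := (truth_lemma.{u} ⟨w, hw⟩ φ ⟨w, hw⟩ [] hp).1 h2
    exact (hw.neg_iff φ).1 (hsub rfl) h3

end Pool.Agent.Results.MP_4a7d17_lc.Axiomatization
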